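import Pool.Agent.TH363.OT.Step

set_option autoImplicit false

namespace Pool.Agent.TH363.OT

open Filter Topology Function

lemma odet_two (q : Fin 3 → Fin 2 → ℝ) :
    odet q = (q 1 0 - q 0 0) * (q 2 1 - q 0 1) - (q 1 1 - q 0 1) * (q 2 0 - q 0 0) := by
  have e : ∀ i : Fin 3, (Fin.cons (1 : ℝ) (q i) : Fin 3 → ℝ) = ![1, q i 0, q i 1] := by
    intro i
    funext j
    fin_cases j <;> rfl
  unfold odet
  rw [Matrix.det_fin_three]
  simp only [Matrix.of_apply, e]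
  simp
  ring

section base

variable {n : ℕ}

/-- vertices of the cycle and midpoints of its edges -/
noncomputable def qq (x : ZMod n → Fin 2 → ℝ) : ZMod n ⊕ ZMod n → Fin 2 → ℝ
  | Sum.inl j => x j
  | Sum.inr j => fun l => (x j l + x (j + 1) l) / 2

/-- weight of the index `i` -/
noncomputable def W (i : ZMod n) (v : ZMod n ⊕ ZMod n) : ℝ :=
  qq (fun j _ => if j = i then 1 else 0) v 0

lemma W_inl (i j : ZMod n) : W i (Sum.inl j) = if j = i then 1 else 0 := rfl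

lemma W_inr (i j : ZMod n) : W i (Sum.inr j) =
    ((if j = i then 1 else 0) + (if j + 1 = i then 1 else 0)) / 2 := rfl

/-- a special triple: two adjacent vertices and the midpoint between them -/
def Special (T : Fin 3 → ZMod n ⊕ ZMod n) : Prop :=
  ∃ j : ZMod n, ∀ k, T k = Sum.inl j ∨ T k = Sum.inl (j + 1) ∨ T k = Sum.inr j

/-- some index has positive weight in exactly one of the three -/
def Priv (u v w : ZMod n ⊕ ZMod n) : Prop :=
  ∃ i, (W i u ≠ 0 ∧ W i v = 0 ∧ W i w = 0) ∨ (W i v ≠ 0 ∧ W i u = 0 ∧ W i w = 0) ∨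
    (W i w ≠ 0 ∧ W i u = 0 ∧ W i v = 0)

lemma Priv.swap12 {u v w : ZMod n ⊕ ZMod n} (h : Priv u v w) : Priv v u w := by
  obtain ⟨i, h⟩ := h; exact ⟨i, by tauto⟩

lemma Priv.swap23 {u v w : ZMod n ⊕ ZMod n} (h : Priv u v w) : Priv u w v := by
  obtain ⟨i, h⟩ := h; exact ⟨i, by tauto⟩

lemma W_inr_ne (i j : ZMod n) (h : j = i ∨ j + 1 = i) : W i (Sum.inr j) ≠ 0 := by
  rw [W_inr]
  rcases h with h | h <;> simp only [h, if_true] <;> split_ifs <;> norm_num

lemma W_inr_eq (i j : ZMod n) (h : j ≠ i) (h' : j + 1 ≠ i) : W i (Sum.inr j) = 0 := by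
  rw [W_inr, if_neg h, if_neg h']; norm_num

lemma W_inl_ne (j : ZMod n) : W j (Sum.inl j) ≠ 0 := by
  rw [W_inl, if_pos rfl]; norm_num

lemma W_inl_eq (i j : ZMod n) (h : j ≠ i) : W i (Sum.inl j) = 0 := by
  rw [W_inl, if_neg h]

lemma priv_lll {a b c : ZMod n} (hab : a ≠ b) (hac : a ≠ c) :
    Priv (Sum.inl a) (Sum.inl b) (Sum.inl c : ZMod n ⊕ ZMod n) :=
  ⟨a, Or.inl ⟨W_inl_ne a, W_inl_eq _ _ hab.symm, W_inl_eq _ _ hac.symm⟩⟩

lemma priv_llr {a b c : ZMod n} (hab : a ≠ b)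
    (h : ¬ ((a = c ∨ a = c + 1) ∧ (b = c ∨ b = c + 1))) :
    Priv (Sum.inl a) (Sum.inl b) (Sum.inr c : ZMod n ⊕ ZMod n) := by
  by_cases ha : a = c ∨ a = c + 1
  · have hb : ¬ (b = c ∨ b = c + 1) := fun hb => h ⟨ha, hb⟩
    push Not at hb
    exact ⟨b, Or.inr (Or.inl ⟨W_inl_ne b, W_inl_eq _ _ hab, W_inr_eq _ _ hb.1.symm hb.2.symm⟩)⟩
  · push Not at ha
    exact ⟨a, Or.inl ⟨W_inl_ne a, W_inl_eq _ _ hab.symm, W_inr_eq _ _ ha.1.symm ha.2.symm⟩⟩

lemma endpoint (h1 : (1 : ZMod n) ≠ 0) (h2 : (2 : ZMod n) ≠ 0) {b c : ZMod n} (hbc : b ≠ c) :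
    ∃ v, (b = v ∨ b + 1 = v) ∧ c ≠ v ∧ c + 1 ≠ v := by
  by_cases h : b = c + 1
  · refine ⟨b + 1, Or.inr rfl, ?_, ?_⟩
    · intro h'
      apply h2
      rw [h] at h'
      linear_combination -h'
    · intro h'
      rw [h] at h'
      exact h1 (add_eq_left.1 h'.symm)
  · exact ⟨b, Or.inl rfl, hbc.symm, fun h' => h h'.symm⟩

lemma priv_lrr (h1 : (1 : ZMod n) ≠ 0) (h2 : (2 : ZMod n) ≠ 0) {a b c : ZMod n} (hbc : b ≠ c) :
    Priv (Sum.inl a) (Sum.inr b) (Sum.inr c : ZMod n ⊕ ZMod n) := by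
  obtain ⟨v1, g1, g2, g3⟩ := endpoint h1 h2 hbc
  obtain ⟨v2, g4, g5, g6⟩ := endpoint h1 h2 hbc.symm
  by_cases ha : a = v1
  · have hav : a ≠ v2 := by
      rintro rfl
      rcases g1 with g | g
      · exact g5 (g.trans ha.symm)
      · exact g6 (g.trans ha.symm)
    exact ⟨v2, Or.inr (Or.inr ⟨W_inr_ne _ _ g4, W_inl_eq _ _ hav, W_inr_eq _ _ g5 g6⟩)⟩
  · exact ⟨v1, Or.inr (Or.inl ⟨W_inr_ne _ _ g1, W_inl_eq _ _ ha, W_inr_eq _ _ g2 g3⟩)⟩

lemma priv_rrr_aux (h1 : (1 : ZMod n) ≠ 0) (h2 : (2 : ZMod n) ≠ 0) (h3 : (3 : ZMod n) ≠ 0)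
    {a b c : ZMod n} (hac : a ≠ c) (hb : b + 1 = a) (hbc : b ≠ c) :
    Priv (Sum.inr a) (Sum.inr b) (Sum.inr c : ZMod n ⊕ ZMod n) := by
  subst hb
  by_cases hc : c = b + 2
  · subst hc
    refine ⟨b + 3, Or.inr (Or.inr ⟨W_inr_ne _ _ (Or.inr (by ring)), W_inr_eq _ _ ?_ ?_,
      W_inr_eq _ _ ?_ ?_⟩)⟩
    · intro h; apply h2; linear_combination -h
    · intro h; apply h1; linear_combination -h
    · intro h; apply h3; linear_combination -h
    · intro h; apply h2; linear_combination -h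
  · refine ⟨b + 2, Or.inl ⟨W_inr_ne _ _ (Or.inr (by ring)), W_inr_eq _ _ ?_ ?_,
      W_inr_eq _ _ hc ?_⟩⟩
    · intro h; apply h2; linear_combination -h
    · intro h; apply h1; linear_combination -h
    · intro h; apply hac; linear_combination -h

lemma priv_rrr (h1 : (1 : ZMod n) ≠ 0) (h2 : (2 : ZMod n) ≠ 0) (h3 : (3 : ZMod n) ≠ 0)
    {a b c : ZMod n} (hab : a ≠ b) (hac : a ≠ c) (hbc : b ≠ c) :
    Priv (Sum.inr a) (Sum.inr b) (Sum.inr c : ZMod n ⊕ ZMod n) := by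
  by_cases hb : b + 1 = a
  · exact priv_rrr_aux h1 h2 h3 hac hb hbc
  · by_cases hc : c + 1 = a
    · exact (priv_rrr_aux h1 h2 h3 hab hc hbc.symm).swap23
    · exact ⟨a, Or.inl ⟨W_inr_ne _ _ (Or.inl rfl), W_inr_eq _ _ hab.symm hb,
        W_inr_eq _ _ hac.symm hc⟩⟩

lemma priv_all (h1 : (1 : ZMod n) ≠ 0) (h2 : (2 : ZMod n) ≠ 0) (h3 : (3 : ZMod n) ≠ 0)
    {T : Fin 3 → ZMod n ⊕ ZMod n} (hT : Injective T) (hs : ¬ Special T) :
    Priv (T 0) (T 1) (T 2) := by
  have e01 : T 0 ≠ T 1 := fun h => absurd (hT h) (by decide)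
  have e02 : T 0 ≠ T 2 := fun h => absurd (hT h) (by decide)
  have e12 : T 1 ≠ T 2 := fun h => absurd (hT h) (by decide)
  have key : ∀ a b c : ZMod n, (∀ k, T k = Sum.inl a ∨ T k = Sum.inl b ∨ T k = Sum.inr c) →
      a ≠ b → ¬ ((a = c ∨ a = c + 1) ∧ (b = c ∨ b = c + 1)) := by
    rintro a b c hk hab ⟨ha, hb⟩
    apply hs
    refine ⟨c, fun k => ?_⟩
    rcases hk k with h | h | h
    · rcases ha with rfl | rfl
      · exact Or.inl h
      · exact Or.inr (Or.inl h)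
    · rcases hb with rfl | rfl
      · exact Or.inl h
      · exact Or.inr (Or.inl h)
    · exact Or.inr (Or.inr h)
  rcases h0 : T 0 with a | a <;> rcases h1' : T 1 with b | b <;> rcases h2' : T 2 with c | c <;>
    rw [h0, h1'] at e01 <;> rw [h0, h2'] at e02 <;> rw [h1', h2'] at e12 <;>
    simp only [ne_eq, Sum.inl.injEq, Sum.inr.injEq] at e01 e02 e12
  · exact priv_lll e01 e02
  · exact priv_llr e01 (key a b c (by intro k; fin_cases k <;> simp [h0, h1', h2']) e01)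
  · exact (priv_llr e02 (key a c b (by intro k; fin_cases k <;> simp [h0, h1', h2']) e02)).swap23
  · exact priv_lrr h1 h2 e12
  · exact (priv_llr e12 (key b c a (by intro k; fin_cases k <;> simp [h0, h1', h2']) e12)).swap23.swap12
  · exact (priv_lrr h1 h2 e02).swap12
  · exact (priv_lrr h1 h2 e01).swap12.swap23
  · exact priv_rrr h1 h2 h3 e01 e02 e12

lemma W_sep (h1 : (1 : ZMod n) ≠ 0) (h2 : (2 : ZMod n) ≠ 0) {u v : ZMod n ⊕ ZMod n} (h : u ≠ v) :
    ∃ i, W i u ≠ W i v := by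
  have key : ∀ a b : ZMod n, W a (Sum.inl a) ≠ W a (Sum.inr b) := by
    intro a b
    rw [W_inl, W_inr, if_pos rfl]
    split_ifs with g1 g2 <;> norm_num
    apply h1
    rw [← g1] at g2
    exact add_eq_left.1 g2
  rcases u with a | a <;> rcases v with b | b
  · refine ⟨a, ?_⟩
    have : b ≠ a := fun hh => h (by rw [hh])
    rw [W_inl_eq _ _ this]; exact W_inl_ne a
  · exact ⟨a, key a b⟩
  · exact ⟨b, (key b a).symm⟩
  · have hab : a ≠ b := fun hh => h (by rw [hh])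
    obtain ⟨w, g1, g2, g3⟩ := endpoint h1 h2 hab
    exact ⟨w, by rw [W_inr_eq _ _ g2 g3]; exact W_inr_ne _ _ g1⟩

lemma witness (h1 : (1 : ZMod n) ≠ 0) (h2 : (2 : ZMod n) ≠ 0) (h3 : (3 : ZMod n) ≠ 0)
    {T : Fin 3 → ZMod n ⊕ ZMod n} (hT : Injective T) (hs : ¬ Special T) :
    ∃ x : ZMod n → Fin 2 → ℝ, odet (fun k => qq x (T k)) ≠ 0 := by
  have e01 : T 0 ≠ T 1 := fun h => absurd (hT h) (by decide)
  have e02 : T 0 ≠ T 2 := fun h => absurd (hT h) (by decide)
  have e12 : T 1 ≠ T 2 := fun h => absurd (hT h) (by decide)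
  have hx : ∀ (i' i : ZMod n) (v : ZMod n ⊕ ZMod n),
      qq (fun j l => if l = 0 then (if j = i' then (1 : ℝ) else 0) else if j = i then 1 else 0) v 0
        = W i' v ∧
      qq (fun j l => if l = 0 then (if j = i' then (1 : ℝ) else 0) else if j = i then 1 else 0) v 1
        = W i v := by
    intro i' i v
    rcases v with j | j <;> simp [qq, W]
  obtain ⟨i, h | h | h⟩ := priv_all h1 h2 h3 hT hs
  · obtain ⟨i', hi'⟩ := W_sep h1 h2 e12
    refine ⟨fun j l => if l = 0 then (if j = i' then (1 : ℝ) else 0) else if j = i then 1 else 0,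
      ?_⟩
    · rw [odet_two]
      simp only [(hx i' i _).1, (hx i' i _).2, h.2.1, h.2.2]
      have : (W i' (T 1) - W i' (T 0)) * (0 - W i (T 0)) - (0 - W i (T 0)) * (W i' (T 2) - W i' (T 0))
        = (W i' (T 2) - W i' (T 1)) * W i (T 0) := by ring
      rw [this]
      exact mul_ne_zero (sub_ne_zero.2 hi'.symm) h.1
  · obtain ⟨i', hi'⟩ := W_sep h1 h2 e02
    refine ⟨fun j l => if l = 0 then (if j = i' then (1 : ℝ) else 0) else if j = i then 1 else 0,
      ?_⟩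
    · rw [odet_two]
      simp only [(hx i' i _).1, (hx i' i _).2, h.2.1, h.2.2]
      have : (W i' (T 1) - W i' (T 0)) * (0 - 0) - (W i (T 1) - 0) * (W i' (T 2) - W i' (T 0))
        = (W i' (T 0) - W i' (T 2)) * W i (T 1) := by ring
      rw [this]
      exact mul_ne_zero (sub_ne_zero.2 hi') h.1
  · obtain ⟨i', hi'⟩ := W_sep h1 h2 e01
    refine ⟨fun j l => if l = 0 then (if j = i' then (1 : ℝ) else 0) else if j = i then 1 else 0,
      ?_⟩
    · rw [odet_two]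
      simp only [(hx i' i _).1, (hx i' i _).2, h.2.1, h.2.2]
      have : (W i' (T 1) - W i' (T 0)) * (W i (T 2) - 0) - (0 - 0) * (W i' (T 2) - W i' (T 0))
        = (W i' (T 1) - W i' (T 0)) * W i (T 2) := by ring
      rw [this]
      exact mul_ne_zero (sub_ne_zero.2 hi'.symm) h.1

open MvPolynomial in
/-- polynomial version of `qq` -/
noncomputable def qp : ZMod n ⊕ ZMod n → Fin 2 → MvPolynomial (ZMod n × Fin 2) ℝ
  | Sum.inl j => fun l => X (j, l)
  | Sum.inr j => fun l => C (1 / 2) * (X (j, l) + X (j + 1, l))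

lemma eval_qp (x : ZMod n × Fin 2 → ℝ) (v : ZMod n ⊕ ZMod n) (l : Fin 2) :
    MvPolynomial.eval x (qp v l) = qq (fun j l => x (j, l)) v l := by
  rcases v with j | j
  · simp [qp, qq]
  · simp [qp, qq]; ring

/-- the determinant polynomial -/
noncomputable def dp (T : Fin 3 → ZMod n ⊕ ZMod n) : MvPolynomial (ZMod n × Fin 2) ℝ :=
  (qp (T 1) 0 - qp (T 0) 0) * (qp (T 2) 1 - qp (T 0) 1) -
    (qp (T 1) 1 - qp (T 0) 1) * (qp (T 2) 0 - qp (T 0) 0)

lemma eval_dp (x : ZMod n × Fin 2 → ℝ) (T : Fin 3 → ZMod n ⊕ ZMod n) :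
    MvPolynomial.eval x (dp T) = odet (fun k => qq (fun j l => x (j, l)) (T k)) := by
  rw [odet_two]
  simp only [dp, map_sub, map_mul, eval_qp]

theorem exists_generic [NeZero n] (h1 : (1 : ZMod n) ≠ 0) (h2 : (2 : ZMod n) ≠ 0)
    (h3 : (3 : ZMod n) ≠ 0) :
    ∃ x : ZMod n → Fin 2 → ℝ, (∀ u v : ZMod n ⊕ ZMod n, u ≠ v → qq x u 0 ≠ qq x v 0) ∧
      ∀ T : Fin 3 → ZMod n ⊕ ZMod n, Injective T → ¬ Special T → odet (fun k => qq x (T k)) ≠ 0 := by
  classical
  let P : MvPolynomial (ZMod n × Fin 2) ℝ :=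
    (∏ z : (ZMod n ⊕ ZMod n) × (ZMod n ⊕ ZMod n), if z.1 ≠ z.2 then qp z.1 0 - qp z.2 0 else 1) *
    ∏ T : Fin 3 → ZMod n ⊕ ZMod n, if Injective T ∧ ¬ Special T then dp T else 1
  have hP : P ≠ 0 := by
    refine mul_ne_zero (Finset.prod_ne_zero_iff.2 fun z _ => ?_)
      (Finset.prod_ne_zero_iff.2 fun T _ => ?_)
    · split_ifs with h
      · obtain ⟨i, hi⟩ := W_sep h1 h2 h
        intro h0
        have h5 := congrArg (MvPolynomial.eval (fun z : ZMod n × Fin 2 => if z.1 = i then (1 : ℝ) else 0)) h0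
        rw [map_sub, eval_qp, eval_qp, map_zero, sub_eq_zero] at h5
        exact hi h5
      · exact one_ne_zero
    · split_ifs with h
      · obtain ⟨x, hx⟩ := witness h1 h2 h3 h.1 h.2
        intro h0
        have h5 := congrArg (MvPolynomial.eval (fun z : ZMod n × Fin 2 => x z.1 z.2)) h0
        rw [eval_dp, map_zero] at h5
        exact hx h5
      · exact one_ne_zero
  obtain ⟨x, hx⟩ : ∃ x, MvPolynomial.eval x P ≠ 0 := by
    by_contra hcon
    push Not at hcon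
    apply hP
    apply MvPolynomial.funext
    intro x
    rw [hcon x, map_zero]
  simp only [P, map_mul, map_prod] at hx
  have hx1 := left_ne_zero_of_mul hx
  have hx2 := right_ne_zero_of_mul hx
  rw [Finset.prod_ne_zero_iff] at hx1 hx2
  refine ⟨fun j l => x (j, l), fun u v huv => ?_, fun T hT hs => ?_⟩
  · have h5 := hx1 (u, v) (Finset.mem_univ _)
    rw [if_pos huv, map_sub, eval_qp, eval_qp] at h5
    exact sub_ne_zero.1 h5
  · have h5 := hx2 T (Finset.mem_univ _)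
    rw [if_pos ⟨hT, hs⟩, eval_dp] at h5
    exact h5

/-- perturbed positions -/
noncomputable def pos (x : ZMod n → Fin 2 → ℝ) (z : (ZMod n → ℝ) × (ZMod n → ℝ)) :
    ZMod n ⊕ ZMod n → Fin 2 → ℝ
  | Sum.inl j => ![x j 0, x j 1 + z.1 j]
  | Sum.inr j => ![qq x (Sum.inr j) 0, qq x (Sum.inr j) 1 + z.2 j]

lemma pos_zero (x : ZMod n → Fin 2 → ℝ) : pos x 0 = qq x := by
  funext v l
  rcases v with j | j <;> fin_cases l <;> simp [pos, qq]

lemma pos_fst (x : ZMod n → Fin 2 → ℝ) (z : (ZMod n → ℝ) × (ZMod n → ℝ)) (v : ZMod n ⊕ ZMod n) :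
    pos x z v 0 = qq x v 0 := by
  rcases v with j | j <;> simp [pos, qq]

lemma continuous_pos (x : ZMod n → Fin 2 → ℝ) (T : Fin 3 → ZMod n ⊕ ZMod n) :
    Continuous fun z => odet (fun k => pos x z (T k)) := by
  apply continuous_odet.comp
  refine continuous_pi fun k => continuous_pi fun l => ?_
  rcases h : T k with j | j <;> simp only [pos] <;> fin_cases l <;> simp <;> fun_prop

/-- the special triple in standard order -/
def S3 (j : ZMod n) : Fin 3 → ZMod n ⊕ ZMod n := ![Sum.inl j, Sum.inr j, Sum.inl (j + 1)]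

lemma odet_S3 (x : ZMod n → Fin 2 → ℝ) (z : (ZMod n → ℝ) × (ZMod n → ℝ)) (j : ZMod n) :
    odet (fun k => pos x z (S3 j k)) =
      (x (j + 1) 0 - x j 0) * ((z.1 j + z.1 (j + 1)) / 2 - z.2 j) := by
  rw [odet_two]
  simp [S3, pos, qq]
  ring

lemma special_perm {T : Fin 3 → ZMod n ⊕ ZMod n} (hT : Injective T) {j : ZMod n}
    (h : ∀ k, T k = Sum.inl j ∨ T k = Sum.inl (j + 1) ∨ T k = Sum.inr j) :
    ∃ σ : Equiv.Perm (Fin 3), ∀ k, T k = S3 j (σ k) := by
  have h2 : ∀ k, ∃ l, T k = S3 j l := by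
    intro k
    rcases h k with h | h | h
    · exact ⟨0, by simp [S3, h]⟩
    · exact ⟨2, by simp [S3, h]⟩
    · exact ⟨1, by simp [S3, h]⟩
  choose g hg using h2
  have hg' : Injective g := by
    intro a b hab
    apply hT
    rw [hg, hg, hab]
  exact ⟨Equiv.ofBijective g (Finite.injective_iff_bijective.1 hg'), hg⟩

lemma prod_perm {ι : Type} {k : ℕ} (y p : ι → Fin k → ℝ) {T S : Fin (k + 1) → ι}
    (σ : Equiv.Perm (Fin (k + 1))) (h : ∀ i, T i = S (σ i)) :
    odet (fun i => y (T i)) * odet (fun i => p (T i)) =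
      odet (fun i => y (S i)) * odet (fun i => p (S i)) := by
  have h1 := odet_perm (fun i => y (S i)) σ
  have h2 := odet_perm (fun i => p (S i)) σ
  simp only [h]
  rw [h1, h2]
  have : ((Equiv.Perm.sign σ : ℤ) : ℝ) * ((Equiv.Perm.sign σ : ℤ) : ℝ) = 1 := by
    rcases Int.units_eq_one_or (Equiv.Perm.sign σ) with h | h <;> simp [h]
  calc _ = (((Equiv.Perm.sign σ : ℤ) : ℝ) * ((Equiv.Perm.sign σ : ℤ) : ℝ)) *
      (odet (fun i => y (S i)) * odet (fun i => p (S i))) := by ring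
    _ = _ := by rw [this, one_mul]

end base

/-- alternating signs -/
noncomputable def th (k : ℕ) (j : ZMod (2 * k)) : ℝ :=
  if ZMod.castHom (Dvd.intro k rfl : 2 ∣ 2 * k) (ZMod 2) j = 0 then 1 else -1

lemma th_succ (k : ℕ) (j : ZMod (2 * k)) : th k (j + 1) = - th k j := by
  unfold th
  rw [map_add, map_one]
  have : ∀ a : ZMod 2, (a + 1 = 0 ↔ a ≠ 0) := by decide
  by_cases h : ZMod.castHom (Dvd.intro k rfl : 2 ∣ 2 * k) (ZMod 2) j = 0
  · rw [if_pos h, if_neg]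
    rw [this]; simpa using h
  · rw [if_neg h, if_pos]
    · ring
    · rw [this]; exact h

lemma th_sq (k : ℕ) (j : ZMod (2 * k)) : th k j * th k j = 1 := by
  unfold th
  split_ifs <;> norm_num

lemma th_abs (k : ℕ) (j : ZMod (2 * k)) : |th k j| = 1 := by
  unfold th
  split_ifs <;> norm_num

lemma sum_zero (k : ℕ) [NeZero (2 * k)] (s : ZMod (2 * k) → ℝ) :
    ∑ j, th k j * (s j + s (j + 1)) = 0 := by
  have h1 : ∑ j, th k (j + 1) * s (j + 1) = ∑ j, th k j * s j :=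
    Fintype.sum_equiv (Equiv.addRight (1 : ZMod (2 * k))) _ _ (fun j => rfl)
  have h2 : ∀ j, th k j * (s j + s (j + 1)) = th k j * s j - th k (j + 1) * s (j + 1) := by
    intro j; rw [th_succ]; ring
  rw [Finset.sum_congr rfl fun j _ => h2 j, Finset.sum_sub_distrib, h1, sub_self]

/-- solution of the broken chain -/
lemma chain (k : ℕ) (hk : 1 ≤ k) (κ : ℝ) (hκ : 0 < κ) (j0 : ZMod (2 * k)) :
    ∃ s : ZMod (2 * k) → ℝ, (∀ j, |s j| ≤ 3 * κ * (2 * k)) ∧
      ∀ j, j ≠ j0 → th k j * (s j + s (j + 1)) = 3 * κ := by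
  have : NeZero (2 * k) := ⟨by omega⟩
  refine ⟨fun j => th k j * (-(3 * κ * ((j - (j0 + 1)).val : ℝ))), fun j => ?_, fun j hj => ?_⟩
  · rw [abs_mul, th_abs, one_mul, abs_neg, abs_of_nonneg (by positivity)]
    apply mul_le_mul_of_nonneg_left _ (by positivity)
    have := (ZMod.val_lt (j - (j0 + 1))).le
    exact_mod_cast this
  · have h1 : (j + 1 - (j0 + 1)).val = (j - (j0 + 1)).val + 1 := by
      have e : j + 1 - (j0 + 1) = (j - (j0 + 1)) + 1 := by ring
      rw [e]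
      have h2 := ZMod.val_lt (j - (j0 + 1))
      have hone : (1 : ZMod (2 * k)).val = 1 := by
        rw [ZMod.val_one_eq_one_mod]
        exact Nat.mod_eq_of_lt (by omega)
      have h3 : (j - (j0 + 1)).val ≠ 2 * k - 1 := by
        intro h4
        apply hj
        have h5 : (j - (j0 + 1)) = ((2 * k - 1 : ℕ) : ZMod (2 * k)) := by
          rw [← h4, ZMod.natCast_val, ZMod.cast_id]
        rw [Nat.cast_sub (by omega)] at h5
        simp only [ZMod.natCast_self, Nat.cast_one, zero_sub] at h5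
        linear_combination h5
      rw [ZMod.val_add_of_lt (by rw [hone]; omega), hone]
    have h2 := th_succ k j
    have h3 := th_sq k j
    simp only [h1, h2]
    push_cast
    linear_combination (3 * κ) * h3

end Pool.Agent.TH363.OT
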