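import Pool.Agent.TH363.OT.Base

set_option autoImplicit false

namespace Pool.Agent.TH363.OT

open Filter Topology Function

lemma inj3 {α : Type} {a b c : α} (hab : a ≠ b) (hac : a ≠ c) (hbc : b ≠ c) :
    Injective (![a, b, c] : Fin 3 → α) := by
  intro i j h
  fin_cases i <;> fin_cases j
  · rfl
  · exact absurd h hab
  · exact absurd h hac
  · exact absurd h hab.symm
  · rfl
  · exact absurd h hbc
  · exact absurd h hac.symm
  · exact absurd h hbc.symm
  · rfl

theorem base_good (k : ℕ) (hk : 2 ≤ k) :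
    ∃ (b : ZMod (2 * k) ⊕ ZMod (2 * k) → Set (Fin 2 → ℝ))
      (p : ZMod (2 * k) ⊕ ZMod (2 * k) → Fin 2 → ℝ), Good 2 (ZMod (2 * k) ⊕ ZMod (2 * k)) b p := by
  classical
  have : NeZero (2 * k) := ⟨by omega⟩
  have hcast : ∀ a : ℕ, 0 < a → a < 2 * k → (a : ZMod (2 * k)) ≠ 0 := by
    intro a h0 h1 h2
    rw [ZMod.natCast_eq_zero_iff] at h2
    exact absurd (Nat.le_of_dvd h0 h2) (by omega)
  have h1 : (1 : ZMod (2 * k)) ≠ 0 := by simpa using hcast 1 (by norm_num) (by omega)
  have h2 : (2 : ZMod (2 * k)) ≠ 0 := by simpa using hcast 2 (by norm_num) (by omega)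
  have h3 : (3 : ZMod (2 * k)) ≠ 0 := by simpa using hcast 3 (by norm_num) (by omega)
  obtain ⟨x, hx1, hx2⟩ := exists_generic h1 h2 h3
  -- small perturbations do not change non-special triples
  obtain ⟨δ, hδ, hpos⟩ : ∃ δ > 0, ∀ z : (ZMod (2 * k) → ℝ) × (ZMod (2 * k) → ℝ),
      (∀ j, |z.1 j| ≤ δ) → (∀ j, |z.2 j| ≤ δ) → ∀ T : Fin 3 → ZMod (2 * k) ⊕ ZMod (2 * k),
        Injective T → ¬ Special T →
        0 < odet (fun l => pos x z (T l)) * odet (fun l => qq x (T l)) := by
    have h4 : ∀ᶠ z : (ZMod (2 * k) → ℝ) × (ZMod (2 * k) → ℝ) in 𝓝 0,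
        ∀ T : Fin 3 → ZMod (2 * k) ⊕ ZMod (2 * k), Injective T → ¬ Special T →
        0 < odet (fun l => pos x z (T l)) * odet (fun l => qq x (T l)) := by
      rw [eventually_all]
      intro T
      by_cases hT : Injective T ∧ ¬ Special T
      · have h5 : Continuous fun z => odet (fun l => pos x z (T l)) * odet (fun l => qq x (T l)) :=
          (continuous_pos x T).mul continuous_const
        have h6 : 0 < odet (fun l => pos x 0 (T l)) * odet (fun l => qq x (T l)) := by
          rw [pos_zero]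
          exact mul_self_pos.2 (hx2 T hT.1 hT.2)
        filter_upwards [h5.continuousAt.eventually_const_lt h6] with z hz _ _
        exact hz
      · filter_upwards with z h h'; exact absurd ⟨h, h'⟩ hT
    obtain ⟨ε, hε, hball⟩ := Metric.eventually_nhds_iff_ball.1 h4
    refine ⟨ε / 2, by positivity, fun z hz1 hz2 T hT hs => hball z ?_ T hT hs⟩
    rw [mem_ball_zero_iff, Prod.norm_def, max_lt_iff]
    constructor
    · refine lt_of_le_of_lt ((pi_norm_le_iff_of_nonneg (by positivity)).2 fun j => ?_) (half_lt_self hε)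
      exact hz1 j
    · refine lt_of_le_of_lt ((pi_norm_le_iff_of_nonneg (by positivity)).2 fun j => ?_) (half_lt_self hε)
      exact hz2 j
  obtain ⟨κ, hκ, hκδ⟩ : ∃ κ > 0, 3 * κ * (2 * k) = δ := by
    have hk0 : (0 : ℝ) < k := by exact_mod_cast (by omega : 0 < k)
    exact ⟨δ / (3 * (2 * k)), by positivity, by field_simp⟩
  have hκδ' : κ ≤ δ := by
    rw [← hκδ]
    have : (1 : ℝ) ≤ k := by exact_mod_cast (by omega : 1 ≤ k)
    nlinarith
  -- the configuration
  let p : ZMod (2 * k) ⊕ ZMod (2 * k) → Fin 2 → ℝ := pos x (0, fun j => -(th k j * κ))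
  let b : ZMod (2 * k) ⊕ ZMod (2 * k) → Set (Fin 2 → ℝ) := fun v =>
    {w | ∃ z : (ZMod (2 * k) → ℝ), (∀ j, |z j| ≤ δ) ∧ w = pos x (z, fun j => th k j * κ) v}
  have hp1 : ∀ T : Fin 3 → ZMod (2 * k) ⊕ ZMod (2 * k), Injective T → ¬ Special T →
        0 < odet (fun l => p (T l)) * odet (fun l => qq x (T l)) := by
    intro T hT hs
    apply hpos _ _ _ T hT hs
    · intro j; simpa using hδ.le
    · intro j
      simp only [abs_neg, abs_mul, th_abs, one_mul]
      rw [abs_of_pos hκ]; exact hκδ'
  have hy1 : ∀ s : ZMod (2 * k) → ℝ, (∀ j, |s j| ≤ δ) →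
      ∀ T : Fin 3 → ZMod (2 * k) ⊕ ZMod (2 * k), Injective T → ¬ Special T →
        0 < odet (fun l => pos x (s, fun j => th k j * κ) (T l)) * odet (fun l => p (T l)) := by
    intro s hs T hT hns
    have e1 := hpos (s, fun j => th k j * κ) hs (by
      intro j
      simp only [abs_mul, th_abs, one_mul]
      rw [abs_of_pos hκ]; exact hκδ') T hT hns
    have e2 := hp1 T hT hns
    have e3 := mul_pos e1 e2
    have e4 : 0 < odet (fun l => qq x (T l)) * odet (fun l => qq x (T l)) :=
      mul_self_pos.2 (hx2 T hT hns)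
    have e5 : odet (fun l => pos x (s, fun j => th k j * κ) (T l)) * odet (fun l => qq x (T l)) *
        (odet (fun l => p (T l)) * odet (fun l => qq x (T l))) =
        (odet (fun l => pos x (s, fun j => th k j * κ) (T l)) * odet (fun l => p (T l))) *
        (odet (fun l => qq x (T l)) * odet (fun l => qq x (T l))) := by ring
    rw [e5] at e3
    exact (pos_iff_pos_of_mul_pos e3).2 e4
  have hD : ∀ j, x (j + 1) 0 - x j 0 ≠ 0 := by
    intro j h
    have := hx1 (Sum.inl (j + 1)) (Sum.inl j) (by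
      intro h'
      simp only [Sum.inl.injEq] at h'
      exact h1 (add_eq_left.1 h'))
    exact this (sub_eq_zero.1 h)
  have hS : ∀ (s : ZMod (2 * k) → ℝ) (j : ZMod (2 * k)),
      odet (fun l => pos x (s, fun j => th k j * κ) (S3 j l)) * odet (fun l => p (S3 j l)) =
        (x (j + 1) 0 - x j 0) ^ 2 * κ * (th k j * (s j + s (j + 1)) / 2 - κ) := by
    intro s j
    simp only [p]
    rw [odet_S3, odet_S3]
    simp only [Pi.zero_apply]
    have := th_sq k j
    linear_combination (-(x (j + 1) 0 - x j 0) ^ 2 * κ ^ 2) * this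
  have hpS : ∀ j : ZMod (2 * k), odet (fun l => p (S3 j l)) ≠ 0 := by
    intro j
    simp only [p]
    rw [odet_S3]
    refine mul_ne_zero (hD j) ?_
    simp only [Pi.zero_apply]
    intro h0
    have h4 := th_sq k j
    have h5 : th k j * κ = 0 := by linarith
    rcases mul_eq_zero.1 h5 with h6 | h6
    · rw [h6] at h4; norm_num at h4
    · exact hκ.ne' h6
  -- representatives as positions
  have hrep : ∀ y : ZMod (2 * k) ⊕ ZMod (2 * k) → Fin 2 → ℝ, (∀ v, y v ∈ b v) →
      ∃ s : ZMod (2 * k) → ℝ, (∀ j, |s j| ≤ δ) ∧ y = pos x (s, fun j => th k j * κ) := by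
    intro y hy
    choose z hz1 hz2 using hy
    refine ⟨fun j => z (Sum.inl j) j, fun j => hz1 _ j, ?_⟩
    funext v
    rw [hz2 v]
    rcases v with j | j <;> rfl
  refine ⟨b, p, ?_, ?_, ?_, ?_, ?_⟩
  · intro v
    have hne : (b v).Nonempty := ⟨_, 0, by intro j; simpa using hδ.le, rfl⟩
    have hconv : Convex ℝ (b v) := by
      rintro _ ⟨z, hz, rfl⟩ _ ⟨z', hz', rfl⟩ s t hs ht hst
      refine ⟨s • z + t • z', fun j => ?_, ?_⟩
      · simp only [Pi.add_apply, Pi.smul_apply, smul_eq_mul]
        calc |s * z j + t * z' j| ≤ |s * z j| + |t * z' j| := abs_add_le _ _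
          _ = s * |z j| + t * |z' j| := by rw [abs_mul, abs_mul, abs_of_nonneg hs, abs_of_nonneg ht]
          _ ≤ s * δ + t * δ := add_le_add (mul_le_mul_of_nonneg_left (hz j) hs)
              (mul_le_mul_of_nonneg_left (hz' j) ht)
          _ = δ := by rw [← add_mul, hst, one_mul]
      · have hs' : s = 1 - t := by linarith
        rcases v with j | j <;> funext l <;> fin_cases l <;> simp [pos, hs'] <;> ring
    refine ⟨hne, ?_, hconv⟩
    have : b v = (fun z : ZMod (2 * k) → ℝ => pos x (z, fun j => th k j * κ) v) ''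
        (Set.pi Set.univ fun _ => Set.Icc (-δ) δ) := by
      ext w
      constructor
      · rintro ⟨z, hz, rfl⟩
        exact ⟨z, fun j _ => abs_le.1 (hz j), rfl⟩
      · rintro ⟨z, hz, rfl⟩
        exact ⟨z, fun j => abs_le.2 (hz j (Set.mem_univ j)), rfl⟩
    rw [this]
    apply (isCompact_univ_pi fun _ => isCompact_Icc).image
    refine continuous_pi fun l => ?_
    rcases v with j | j <;> simp only [pos] <;> fin_cases l <;> simp <;> fun_prop
  · intro v w hvw
    rw [Set.disjoint_left]
    rintro _ ⟨z, -, rfl⟩ ⟨z', -, hz⟩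
    have := congrFun hz 0
    rw [pos_fst, pos_fst] at this
    exact hx1 v w hvw this
  · intro T hT
    by_cases hs : Special T
    · obtain ⟨j, hj⟩ := hs
      obtain ⟨σ, hσ⟩ := special_perm hT hj
      intro h0
      have h4 := prod_perm p p σ hσ
      rw [h0, zero_mul] at h4
      exact hpS j (mul_self_eq_zero.1 h4.symm)
    · intro h0
      have := hp1 T hT hs
      rw [h0, zero_mul] at this
      exact lt_irrefl _ this
  · intro i0
    -- the broken place
    obtain ⟨j0, hj0⟩ : ∃ j0, i0 = Sum.inl j0 ∨ i0 = Sum.inr j0 := by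
      rcases i0 with j | j
      · exact ⟨j, Or.inl rfl⟩
      · exact ⟨j, Or.inr rfl⟩
    obtain ⟨s, hs1, hs2⟩ := chain k (by omega) κ hκ j0
    rw [hκδ] at hs1
    refine ⟨pos x (s, fun j => th k j * κ), fun v => ⟨s, hs1, rfl⟩, fun T hT hav => ?_⟩
    by_cases hs : Special T
    · obtain ⟨j, hj⟩ := hs
      obtain ⟨σ, hσ⟩ := special_perm hT hj
      rw [prod_perm _ _ σ hσ, hS]
      have hjj : j ≠ j0 := by
        rintro rfl
        rcases hj0 with h | h
        · apply hav (σ.symm 0)
          rw [hσ, Equiv.apply_symm_apply, h]; rfl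
        · apply hav (σ.symm 1)
          rw [hσ, Equiv.apply_symm_apply, h]; rfl
      rw [hs2 j hjj]
      have := hD j
      have h4 : 0 < 3 * κ / 2 - κ := by linarith
      positivity
    · exact hy1 s hs1 T hT hs
  · intro y hy
    obtain ⟨s, hs1, rfl⟩ := hrep y hy
    constructor
    · obtain ⟨j, -, hj⟩ : ∃ j ∈ Finset.univ, th k j * (s j + s (j + 1)) ≤ 0 := by
        by_contra hcon
        push Not at hcon
        have h4 := Finset.sum_pos hcon ⟨0, Finset.mem_univ _⟩
        rw [sum_zero] at h4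
        exact lt_irrefl _ h4
      refine ⟨S3 j, ?_⟩
      rw [hS]
      have h4 := hD j
      have h5 : 0 < (x (j + 1) 0 - x j 0) ^ 2 * κ := by positivity
      have h6 : th k j * (s j + s (j + 1)) / 2 - κ < 0 := by linarith
      exact mul_neg_of_pos_of_neg h5 h6
    · refine ⟨![Sum.inr 0, Sum.inr 1, Sum.inr 2], hy1 s hs1 _ ?_ ?_⟩
      · have e1 : (1 : ZMod (2 * k)) ≠ 2 := by
          intro h
          apply h1
          linear_combination -h
        refine inj3 ?_ ?_ ?_
        · intro h; exact h1 (Sum.inr.inj h).symm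
        · intro h; exact h2 (Sum.inr.inj h).symm
        · intro h; exact e1 (Sum.inr.inj h)
      · rintro ⟨j, hj⟩
        have g0 : (0 : ZMod (2 * k)) = j := by simpa using hj 0
        have g1 : (1 : ZMod (2 * k)) = j := by simpa using hj 1
        exact h1 (g1.trans g0.symm)

/-- good families of any dimension at least two and any size -/
theorem exists_good (m : ℕ) (hm : 2 ≤ m) (N : ℕ) :
    ∃ (ι : Type) (_ : Fintype ι) (b : ι → Set (Fin m → ℝ)) (p : ι → Fin m → ℝ),
      N < Fintype.card ι ∧ Good m ι b p := by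
  induction m, hm using Nat.le_induction with
  | base =>
    have : NeZero (2 * (N + 2)) := ⟨by omega⟩
    obtain ⟨b, p, h⟩ := base_good (N + 2) (by omega)
    refine ⟨_, inferInstance, b, p, ?_, h⟩
    rw [Fintype.card_sum, ZMod.card]
    omega
  | succ m hm ih =>
    obtain ⟨ι, hι, b, p, hN, h⟩ := ih
    obtain ⟨b', p', h'⟩ := step h
    refine ⟨Option ι, inferInstance, b', p', ?_, h'⟩
    rw [Fintype.card_option]
    omega

end Pool.Agent.TH363.OT
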