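import Mathlib

set_option autoImplicit false

namespace Pool.Agent.TH363.OT

/-- The determinant with rows `(1, q 0), …, (1, q k)`, for `k + 1` points `q i` of `ℝ^k`. Its sign
is the orientation of the points. -/
noncomputable def odet {k : ℕ} (q : Fin (k + 1) → Fin k → ℝ) : ℝ :=
  Matrix.det (Matrix.of fun i j : Fin (k + 1) => (Fin.cons (1 : ℝ) (q i) : Fin (k + 1) → ℝ) j)

end Pool.Agent.TH363.OT
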