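import Pool.Agent.TH363.OT.Defs

set_option autoImplicit false

namespace Pool.Agent.TH363.OT

open Filter Topology Function

lemma continuous_odet {k : ℕ} : Continuous (odet : (Fin (k + 1) → Fin k → ℝ) → ℝ) := by
  unfold odet
  refine Continuous.matrix_det ?_
  refine continuous_matrix fun i j => ?_
  refine Fin.cases ?_ (fun j => ?_) j
  · simp only [Matrix.of_apply, Fin.cons_zero]; exact continuous_const
  · simp only [Matrix.of_apply, Fin.cons_succ]; fun_prop

/-- two equal rows -/
lemma odet_eq_zero {k : ℕ} (q : Fin (k + 1) → Fin k → ℝ) {i j : Fin (k + 1)} (hij : i ≠ j)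
    (h : q i = q j) : odet q = 0 := by
  unfold odet
  apply Matrix.det_zero_of_row_eq hij
  funext l
  simp [Matrix.of_apply, h]

lemma odet_perm {k : ℕ} (q : Fin (k + 1) → Fin k → ℝ) (σ : Equiv.Perm (Fin (k + 1))) :
    odet (fun i => q (σ i)) = (Equiv.Perm.sign σ : ℤ) * odet q := by
  unfold odet
  exact Matrix.det_permute σ (Matrix.of fun i j : Fin (k + 1) => (Fin.cons (1 : ℝ) (q i) : Fin (k + 1) → ℝ) j)

/-- expansion along the last column -/
lemma odet_snoc {m : ℕ} (y : Fin (m + 2) → Fin m → ℝ) (h : Fin (m + 2) → ℝ) :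
    odet (fun i => (Fin.snoc (y i) (h i) : Fin (m + 1) → ℝ)) =
      ∑ i : Fin (m + 2), (-1) ^ ((i : ℕ) + (m + 1)) * h i * odet (fun j => y (i.succAbove j)) := by
  unfold odet
  rw [Matrix.det_succ_column _ (Fin.last (m + 1))]
  refine Finset.sum_congr rfl fun i _ => ?_
  have e1 : (Matrix.of fun i j : Fin (m + 2) =>
      (Fin.cons (1 : ℝ) (Fin.snoc (y i) (h i) : Fin (m + 1) → ℝ) : Fin (m + 2) → ℝ) j) i
        (Fin.last (m + 1)) = h i := by
    rw [Matrix.of_apply, ← Fin.succ_last, Fin.cons_succ, Fin.snoc_last]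
  rw [e1]
  congr 2
  ext a b
  simp only [Matrix.submatrix_apply, Matrix.of_apply, Fin.succAbove_last]
  refine Fin.cases ?_ (fun b => ?_) b
  · simp
  · rw [← Fin.succ_castSucc, Fin.cons_succ, Fin.cons_succ, Fin.snoc_castSucc]

/-- the dominating term of the expansion for lexicographic heights -/
lemma lex {m : ℕ} (y : Fin (m + 2) → Fin m → ℝ) (e : Fin (m + 2) → ℕ) (k0 : Fin (m + 2))
    (he : ∀ k, k ≠ k0 → e k0 < e k) (hD : odet (fun j => y (k0.succAbove j)) ≠ 0) :
    ∀ᶠ η : ℝ in 𝓝[>] 0, 0 < odet (fun i => (Fin.snoc (y i) (η ^ e i) : Fin (m + 1) → ℝ)) *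
      ((-1) ^ ((k0 : ℕ) + (m + 1)) * odet (fun j => y (k0.succAbove j))) := by
  set c : Fin (m + 2) → ℝ := fun i => (-1) ^ ((i : ℕ) + (m + 1)) *
    odet (fun j => y (i.succAbove j)) with hc
  have hc0 : c k0 ≠ 0 := mul_ne_zero (pow_ne_zero _ (by norm_num)) hD
  let g : ℝ → ℝ := fun η => ∑ i, η ^ (e i - e k0) * c i
  have hg : Continuous g := by fun_prop
  have hg0 : g 0 = c k0 := by
    simp only [g]
    rw [Finset.sum_eq_single k0]
    · simp
    · intro i _ hi
      have := he i hi
      rw [zero_pow (by omega), zero_mul]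
    · simp
  have h1 : ∀ᶠ η : ℝ in 𝓝 0, 0 < g η * c k0 := by
    have : Continuous fun η => g η * c k0 := by fun_prop
    apply this.continuousAt.eventually_const_lt
    show 0 < g 0 * c k0
    rw [hg0]
    exact mul_self_pos.2 hc0
  filter_upwards [h1.filter_mono nhdsWithin_le_nhds, self_mem_nhdsWithin] with η h2 h3
  have h3' : (0 : ℝ) < η := h3
  have e1 : odet (fun i => (Fin.snoc (y i) (η ^ e i) : Fin (m + 1) → ℝ)) = η ^ e k0 * g η := by
    rw [odet_snoc]
    simp only [g, Finset.mul_sum]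
    refine Finset.sum_congr rfl fun i _ => ?_
    rcases eq_or_ne i k0 with rfl | hi
    · simp [hc]; ring
    · have h4 := he i hi
      have : η ^ e i = η ^ e k0 * η ^ (e i - e k0) := by rw [← pow_add]; congr 1; omega
      rw [this, hc]; ring
  rw [e1]
  have : η ^ e k0 * g η * c k0 = η ^ e k0 * (g η * c k0) := by ring
  rw [this]
  positivity

/-- The induction statement. -/
def Good (m : ℕ) (ι : Type) (b : ι → Set (Fin m → ℝ)) (p : ι → Fin m → ℝ) : Prop :=
  (∀ i, (b i).Nonempty ∧ IsCompact (b i) ∧ Convex ℝ (b i)) ∧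
  (∀ i j, i ≠ j → Disjoint (b i) (b j)) ∧
  (∀ T : Fin (m + 1) → ι, Injective T → odet (fun k => p (T k)) ≠ 0) ∧
  (∀ i0, ∃ y : ι → Fin m → ℝ, (∀ i, y i ∈ b i) ∧ ∀ T : Fin (m + 1) → ι, Injective T →
    (∀ k, T k ≠ i0) → 0 < odet (fun k => y (T k)) * odet (fun k => p (T k))) ∧
  (∀ y : ι → Fin m → ℝ, (∀ i, y i ∈ b i) →
    (∃ T : Fin (m + 1) → ι, odet (fun k => y (T k)) * odet (fun k => p (T k)) < 0) ∧
    (∃ T : Fin (m + 1) → ι, 0 < odet (fun k => y (T k)) * odet (fun k => p (T k))))

section step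

variable {m : ℕ} {ι : Type} (b : ι → Set (Fin m → ℝ)) (p : ι → Fin m → ℝ)

/-- base points -/
def base (y : ι → Fin m → ℝ) : Option ι → Fin m → ℝ
  | none => 0
  | some i => y i

/-- base sets -/
def Bse (b : ι → Set (Fin m → ℝ)) : Option ι → Set (Fin m → ℝ)
  | none => {0}
  | some i => b i

/-- exponents -/
def EE (e : ι → ℕ) : Option ι → ℕ
  | none => 0
  | some i => e i + 1

lemma EE_inj {e : ι → ℕ} (he : Injective e) : Injective (EE e) := by
  intro v w h
  cases v with
  | none =>
    cases w with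
    | none => rfl
    | some j => simp [EE] at h
  | some i =>
    cases w with
    | none => simp [EE] at h
    | some j =>
      have : e i = e j := by simpa [EE] using h
      rw [he this]

/-- the lifted configuration -/
noncomputable def lift (e : ι → ℕ) (y : ι → Fin m → ℝ) (η : ℝ) (v : Option ι) : Fin (m + 1) → ℝ :=
  Fin.snoc (base y v) (η ^ EE e v)

lemma lexT {e : ι → ℕ} (he : Injective e) {T : Fin (m + 2) → Option ι} (hT : Injective T) :
    ∃ (k0 : Fin (m + 2)) (S : Fin (m + 1) → ι), Injective S ∧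
      (∀ j, T (k0.succAbove j) = some (S j)) ∧ ∀ k, k ≠ k0 → EE e (T k0) < EE e (T k) := by
  obtain ⟨k0, hk0⟩ := Finite.exists_min (fun k => EE e (T k))
  have h1 : ∀ k, k ≠ k0 → EE e (T k0) < EE e (T k) := by
    intro k hk
    refine lt_of_le_of_ne (hk0 k) fun h => hk ?_
    exact (hT (EE_inj he h)).symm
  have h2 : ∀ j : Fin (m + 1), ∃ i, T (k0.succAbove j) = some i := by
    intro j
    have h3 := h1 _ (Fin.succAbove_ne k0 j)
    cases h4 : T (k0.succAbove j) with
    | none => rw [h4] at h3; simp [EE] at h3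
    | some i => exact ⟨i, rfl⟩
  choose S hS using h2
  refine ⟨k0, S, ?_, hS, h1⟩
  intro a c hac
  have : T (k0.succAbove a) = T (k0.succAbove c) := by rw [hS, hS, hac]
  exact Fin.succAbove_right_injective (hT this)

lemma lift_sign {e : ι → ℕ} (y p : ι → Fin m → ℝ) {T : Fin (m + 2) → Option ι}
    {k0 : Fin (m + 2)} {S : Fin (m + 1) → ι} (hS : ∀ j, T (k0.succAbove j) = some (S j))
    (h1 : ∀ k, k ≠ k0 → EE e (T k0) < EE e (T k))
    (h : 0 < odet (fun k => y (S k)) * odet (fun k => p (S k))) :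
    ∀ᶠ η : ℝ in 𝓝[>] 0, 0 < odet (fun k => lift e y η (T k)) * odet (fun k => lift e p η (T k)) := by
  have key : ∀ q : ι → Fin m → ℝ, (fun j => base q (T (k0.succAbove j))) = fun j => q (S j) := by
    intro q; funext j; rw [hS]; rfl
  have hy : odet (fun k => y (S k)) ≠ 0 := by intro h0; rw [h0, zero_mul] at h; exact lt_irrefl _ h
  have hp : odet (fun k => p (S k)) ≠ 0 := by intro h0; rw [h0, mul_zero] at h; exact lt_irrefl _ h
  have l1 := lex (fun k => base y (T k)) (fun k => EE e (T k)) k0 h1 (by rw [key]; exact hy)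
  have l2 := lex (fun k => base p (T k)) (fun k => EE e (T k)) k0 h1 (by rw [key]; exact hp)
  filter_upwards [l1, l2] with η a1 a2
  rw [key] at a1 a2
  have a3 := mul_pos a1 a2
  have hc : ((-1 : ℝ) ^ ((k0 : ℕ) + (m + 1))) ^ 2 = 1 := by
    rw [← pow_mul, mul_comm, pow_mul]; norm_num
  set A := odet (fun i => (Fin.snoc (base y (T i)) (η ^ EE e (T i)) : Fin (m + 1) → ℝ))
  set B := odet (fun i => (Fin.snoc (base p (T i)) (η ^ EE e (T i)) : Fin (m + 1) → ℝ))
  set c := (-1 : ℝ) ^ ((k0 : ℕ) + (m + 1))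
  set D1 := odet (fun k => y (S k))
  set D2 := odet (fun k => p (S k))
  have a4 : A * (c * D1) * (B * (c * D2)) = (A * B) * (D1 * D2) := by
    calc A * (c * D1) * (B * (c * D2)) = (A * B) * (D1 * D2) * c ^ 2 := by ring
      _ = _ := by rw [hc, mul_one]
  rw [a4] at a3
  exact (pos_iff_pos_of_mul_pos a3).2 h

lemma lift_cons {e : ι → ℕ} (y : ι → Fin m → ℝ) (T : Fin (m + 1) → ι) :
    odet (fun k => lift e y 0 ((Fin.cons none (fun j => some (T j)) : Fin (m + 2) → Option ι) k)) =
      (-1) ^ (m + 1) * odet (fun k => y (T k)) := by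
  unfold lift
  rw [odet_snoc, Fin.sum_univ_succ, Finset.sum_eq_zero]
  · simp [EE, base]
  · intro i _
    simp [EE]

lemma continuous_lift {e : ι → ℕ} (T : Fin (m + 2) → Option ι) :
    Continuous fun z : ℝ × (ι → Fin m → ℝ) => odet (fun k => lift e z.2 z.1 (T k)) := by
  apply continuous_odet.comp
  refine continuous_pi fun k => ?_
  unfold lift
  refine continuous_pi fun j => ?_
  refine Fin.lastCases ?_ (fun j => ?_) j
  · simp only [Fin.snoc_last]; fun_prop
  · simp only [Fin.snoc_castSucc]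
    cases T k with
    | none => simp only [base]; exact continuous_const
    | some i => simp only [base]; fun_prop

theorem step [Finite ι] {b : ι → Set (Fin m → ℝ)} {p : ι → Fin m → ℝ}
    (h : Good m ι b p) :
    ∃ (b' : Option ι → Set (Fin (m + 1) → ℝ)) (p' : Option ι → Fin (m + 1) → ℝ),
      Good (m + 1) (Option ι) b' p' := by
  classical
  have : Fintype ι := Fintype.ofFinite ι
  obtain ⟨h1, h2, h3, h4, h5⟩ := h
  -- a first element
  choose y0 hy0 using fun i => (h1 i).1
  obtain ⟨T0, hT0⟩ := (h5 y0 hy0).2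
  let f := Fintype.equivFin ι
  have hcard : 0 < Fintype.card ι := Fintype.card_pos_iff.2 ⟨T0 0⟩
  let e : ι → ℕ := fun i => (f i : ℕ)
  have he : Injective e := fun a c hac => f.injective (Fin.ext hac)
  let i1 : ι := f.symm ⟨0, hcard⟩
  have hi1 : e i1 = 0 := by simp [e, i1]
  -- chosen representatives
  choose Y hY hYs using h4
  let Z : Option ι → ι := fun v => v.getD i1
  -- positivity of products
  have hGP : ∀ᶠ η : ℝ in 𝓝[>] 0, ∀ T : Fin (m + 2) → Option ι, Injective T →
      0 < odet (fun k => lift e p η (T k)) * odet (fun k => lift e p η (T k)) := by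
    rw [eventually_all]
    intro T
    by_cases hT : Injective T
    · obtain ⟨k0, S, hS, hTS, hk⟩ := lexT he hT
      filter_upwards [lift_sign p p hTS hk (mul_self_pos.2 (h3 S hS))] with η hη _
      exact hη
    · filter_upwards with η h; exact absurd h hT
  have hC : ∀ᶠ η : ℝ in 𝓝[>] 0, ∀ v : Option ι, ∀ T : Fin (m + 2) → Option ι, Injective T →
      (∀ k, T k ≠ v) →
      0 < odet (fun k => lift e (Y (Z v)) η (T k)) * odet (fun k => lift e p η (T k)) := by
    rw [eventually_all]
    intro v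
    rw [eventually_all]
    intro T
    by_cases hT : Injective T ∧ ∀ k, T k ≠ v
    · obtain ⟨hT, hv⟩ := hT
      obtain ⟨k0, S, hS, hTS, hk⟩ := lexT he hT
      have hav : ∀ j, S j ≠ Z v := by
        intro j hj
        cases v with
        | none =>
          have hj' : S j = i1 := hj
          have a1 := hk _ (Fin.succAbove_ne k0 j)
          rw [hTS j, hj'] at a1
          have a2 : EE e (some i1) = 1 := by simp [EE, hi1]
          rw [a2] at a1
          cases h6 : T k0 with
          | none => exact hv k0 h6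
          | some i => rw [h6] at a1; simp [EE] at a1
        | some i =>
          have hj' : S j = i := hj
          exact hv (k0.succAbove j) (by rw [hTS j, hj'])
      filter_upwards [lift_sign (Y (Z v)) p hTS hk (hYs (Z v) S hS hav)] with η hη _ _
      exact hη
    · filter_upwards with η h h'; exact absurd ⟨h, h'⟩ hT
  have hK : IsCompact {y : ι → Fin m → ℝ | ∀ i, y i ∈ b i} := by
    have := isCompact_univ_pi (fun i => (h1 i).2.1)
    convert this using 1
    ext y; simp
  have hsq : ((-1 : ℝ) ^ (m + 1)) * ((-1 : ℝ) ^ (m + 1)) = 1 := by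
    rw [← pow_add, ← two_mul, pow_mul]; norm_num
  have hD : ∀ᶠ η : ℝ in 𝓝 0, ∀ y ∈ {y : ι → Fin m → ℝ | ∀ i, y i ∈ b i},
      (∃ T : Fin (m + 2) → Option ι,
        odet (fun k => lift e y η (T k)) * odet (fun k => lift e p η (T k)) < 0) ∧
      (∃ T : Fin (m + 2) → Option ι,
        0 < odet (fun k => lift e y η (T k)) * odet (fun k => lift e p η (T k))) := by
    apply hK.eventually_forall_of_forall_eventually
    intro y hy
    obtain ⟨⟨T, hT⟩, ⟨T', hT'⟩⟩ := h5 y hy
    have hcont : ∀ T : Fin (m + 2) → Option ι, Continuous fun z : ℝ × (ι → Fin m → ℝ) =>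
        odet (fun k => lift e z.2 z.1 (T k)) * odet (fun k => lift e p z.1 (T k)) := by
      intro T
      refine (continuous_lift T).mul ?_
      exact (continuous_lift T).comp
        (g := fun z : ℝ × (ι → Fin m → ℝ) => odet (fun k => lift e z.2 z.1 (T k)))
        (f := fun z : ℝ × (ι → Fin m → ℝ) => (z.1, p)) (by fun_prop)
    have e1 := (hcont (Fin.cons none (fun j => some (T j)))).continuousAt (x := ((0 : ℝ), y))
    have e2 := (hcont (Fin.cons none (fun j => some (T' j)))).continuousAt (x := ((0 : ℝ), y))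
    have f1 : ∀ᶠ z : ℝ × (ι → Fin m → ℝ) in 𝓝 (0, y),
        odet (fun k => lift e z.2 z.1 ((Fin.cons none (fun j => some (T j)) : Fin (m + 2) → Option ι) k)) *
        odet (fun k => lift e p z.1 ((Fin.cons none (fun j => some (T j)) : Fin (m + 2) → Option ι) k)) < 0 := by
      apply e1.eventually_lt_const
      show odet (fun k => lift e y 0 _) * odet (fun k => lift e p 0 _) < 0
      rw [lift_cons, lift_cons]
      calc (-1 : ℝ) ^ (m + 1) * odet (fun k => y (T k)) * ((-1 : ℝ) ^ (m + 1) * odet (fun k => p (T k)))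
          = ((-1 : ℝ) ^ (m + 1) * (-1 : ℝ) ^ (m + 1)) *
            (odet (fun k => y (T k)) * odet (fun k => p (T k))) := by ring
        _ < 0 := by rw [hsq, one_mul]; exact hT
    have f2 : ∀ᶠ z : ℝ × (ι → Fin m → ℝ) in 𝓝 (0, y),
        0 < odet (fun k => lift e z.2 z.1 ((Fin.cons none (fun j => some (T' j)) : Fin (m + 2) → Option ι) k)) *
        odet (fun k => lift e p z.1 ((Fin.cons none (fun j => some (T' j)) : Fin (m + 2) → Option ι) k)) := by
      apply e2.eventually_const_lt
      show 0 < odet (fun k => lift e y 0 _) * odet (fun k => lift e p 0 _)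
      rw [lift_cons, lift_cons]
      calc 0 < ((-1 : ℝ) ^ (m + 1) * (-1 : ℝ) ^ (m + 1)) *
            (odet (fun k => y (T' k)) * odet (fun k => p (T' k))) := by
              rw [hsq, one_mul]; exact hT'
        _ = _ := by ring
    filter_upwards [f1, f2] with z g1 g2
    exact ⟨⟨_, g1⟩, ⟨_, g2⟩⟩
  have hlt1 : ∀ᶠ η : ℝ in 𝓝[>] 0, η < 1 :=
    (eventually_lt_nhds (by norm_num : (0 : ℝ) < 1)).filter_mono nhdsWithin_le_nhds
  obtain ⟨η, ⟨⟨⟨hη1, hη2⟩, hη3⟩, hη4⟩, hη0⟩ := (((hGP.and hC).and
    (hD.filter_mono nhdsWithin_le_nhds)).and hlt1 |>.and self_mem_nhdsWithin).exists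
  have hη0' : (0 : ℝ) < η := hη0
  refine ⟨fun v => (fun w => (Fin.snoc w (η ^ EE e v) : Fin (m + 1) → ℝ)) '' Bse b v,
    lift e p η, ?_, ?_, ?_, ?_, ?_⟩
  · intro v
    have hB : (Bse b v).Nonempty ∧ IsCompact (Bse b v) ∧ Convex ℝ (Bse b v) := by
      cases v with
      | none => exact ⟨⟨0, rfl⟩, isCompact_singleton, convex_singleton 0⟩
      | some i => exact h1 i
    refine ⟨hB.1.image _, hB.2.1.image ?_, ?_⟩
    · refine continuous_pi fun j => ?_
      refine Fin.lastCases ?_ (fun j => ?_) j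
      · simp only [Fin.snoc_last]; fun_prop
      · simp only [Fin.snoc_castSucc]; fun_prop
    · rintro _ ⟨w, hw, rfl⟩ _ ⟨w', hw', rfl⟩ s t hs ht hst
      refine ⟨s • w + t • w', hB.2.2 hw hw' hs ht hst, ?_⟩
      funext j
      refine Fin.lastCases ?_ (fun j => ?_) j
      · simp only [Fin.snoc_last, Pi.add_apply, Pi.smul_apply, smul_eq_mul]
        rw [← add_mul, hst, one_mul]
      · simp only [Fin.snoc_castSucc, Pi.add_apply, Pi.smul_apply]
  · intro v w hvw
    rw [Set.disjoint_left]
    rintro _ ⟨y, -, rfl⟩ ⟨z, -, hz⟩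
    have h6 := congrFun hz (Fin.last m)
    simp only [Fin.snoc_last] at h6
    have h7 : EE e w = EE e v := by
      exact pow_right_injective₀ hη0' hη4.ne h6
    exact hvw (EE_inj he h7).symm
  · intro T hT h0
    have := hη1 T hT
    rw [h0, zero_mul] at this
    exact lt_irrefl _ this
  · intro v
    refine ⟨lift e (Y (Z v)) η, fun w => ?_, hη2 v⟩
    refine ⟨base (Y (Z v)) w, ?_, rfl⟩
    cases w with
    | none => exact rfl
    | some i => exact hY (Z v) i
  · intro z hz
    choose w hw hwz using hz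
    have hy : ∀ i, w (some i) ∈ b i := fun i => hw (some i)
    have e1 : z = lift e (fun i => w (some i)) η := by
      funext v
      rw [← hwz v]
      cases v with
      | none =>
        have : w none = 0 := hw none
        simp only [lift, base, this]
      | some i => rfl
    rw [e1]
    exact hη3 _ hy

end step

end Pool.Agent.TH363.OT
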